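import Mathlib

/-!
# `A_4 × (C_2)^m` is R-sequenceable for every `m`
-/

namespace Pool.Agent.Results.MP_0ef4f9_co.RSequenceableA4

open Equiv Equiv.Perm

/-- `a_0, ..., a_{n-1}` is an R-sequencing of the group `G` of order `n`: every element of `G`
appears exactly once, `a_0 = 1`, the partial products `b_i = a_0 a_1 ... a_i` with
`0 ≤ i ≤ n - 2` are pairwise distinct, and the full product `a_0 a_1 ... a_{n-1}` equals `1`.
Here `Fin.partialProd a i.succ = a_0 a_1 ... a_i`. -/
def IsRSequencing {G : Type*} [Group G] {n : ℕ} (a : Fin n → G) : Prop :=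
  Function.Bijective a ∧ (∀ i : Fin n, i.val = 0 → a i = 1) ∧
    (∀ i j : Fin n, i.val + 2 ≤ n → j.val + 2 ≤ n →
      Fin.partialProd a i.succ = Fin.partialProd a j.succ → i = j) ∧
    Fin.partialProd a (Fin.last n) = 1

/-- The finite group `G` is R-sequenceable. -/
def RSequenceable (G : Type*) [Group G] : Prop :=
  ∃ a : Fin (Nat.card G) → G, IsRSequencing a

/-- the inductive property: an orthomorphism-like permutation `T` with one fixed point `x`, a single
cycle on the rest, and a place where the construction can be continued -/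
def Good (K : Type*) [Group K] : Prop :=
  ∃ (T : Perm K) (x p r : K),
    Function.Injective (fun g => g⁻¹ * T g) ∧ (∀ g, g ≠ x → ∀ g', g' ≠ x → T.SameCycle g g') ∧
    T x = x ∧ p ≠ x ∧ r ≠ x ∧ p⁻¹ * T p = r⁻¹ * T (T r) ∧ p * r⁻¹ * T r = x ∧ 5 ≤ Nat.card K

section Basic

variable {K : Type*} [Group K]

theorem isCycleOn_of [Fintype K] [DecidableEq K] {T : Perm K} {x : K}
    (hcyc : ∀ g, g ≠ x → ∀ g', g' ≠ x → T.SameCycle g g') (hx : T x = x) :
    T.IsCycleOn (({x}ᶜ : Finset K) : Set K) := by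
  constructor
  · refine ⟨?_, T.injective.injOn, ?_⟩
    · intro g hg
      simp only [Finset.coe_compl, Finset.coe_singleton, Set.mem_compl_iff,
        Set.mem_singleton_iff] at hg ⊢
      intro h
      exact hg (T.injective (h.trans hx.symm))
    · intro g hg
      simp only [Finset.coe_compl, Finset.coe_singleton, Set.mem_compl_iff,
        Set.mem_singleton_iff] at hg
      refine ⟨T.symm g, ?_, by simp⟩
      simp only [Finset.coe_compl, Finset.coe_singleton, Set.mem_compl_iff,
        Set.mem_singleton_iff]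
      intro h
      apply hg
      rw [← hx, ← h]; simp
  · intro g hg g' hg'
    simp only [Finset.coe_compl, Finset.coe_singleton, Set.mem_compl_iff,
      Set.mem_singleton_iff] at hg hg'
    exact hcyc g hg g' hg'

theorem Good.rSequenceable [Finite K] (h : Good K) : RSequenceable K := by
  classical
  have := Fintype.ofFinite K
  obtain ⟨T, x, p, r, hinj, hcyc, hx, hp, hr, -, -, hcard⟩ := h
  have hcyc' := isCycleOn_of hcyc hx
  have hL : ({x}ᶜ : Finset K).card = Nat.card K - 1 := by
    rw [Finset.card_compl, Finset.card_singleton, Nat.card_eq_fintype_card]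
  have hps : p ∈ ({x}ᶜ : Finset K) := by simpa using hp
  have hpow_ne : ∀ i : ℕ, (T ^ i) p ≠ x := by
    intro i hi
    have h1 : (T ^ i) x = x := by
      induction i with
      | zero => rfl
      | succ i ih =>
        have : ∀ j : ℕ, (T ^ j) x = x := by
          intro j
          induction j with
          | zero => rfl
          | succ j ihj => rw [pow_succ', Perm.mul_apply, ihj, hx]
        exact this _
    exact hp ((T ^ i).injective (hi.trans h1.symm))
  -- the auxiliary injective listing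
  let c : Fin (Nat.card K) → K := fun i => if i.val = 0 then x else (T ^ (i.val - 1)) p
  have hc : Function.Injective c := by
    intro i j hij
    simp only [c] at hij
    by_cases hi : i.val = 0
    · by_cases hj : j.val = 0
      · exact Fin.ext (hi.trans hj.symm)
      · rw [if_pos hi, if_neg hj] at hij
        exact absurd hij.symm (hpow_ne _)
    · by_cases hj : j.val = 0
      · rw [if_neg hi, if_pos hj] at hij
        exact absurd hij (hpow_ne _)
      · rw [if_neg hi, if_neg hj, hcyc'.pow_apply_eq_pow_apply hps, hL] at hij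
        have h1 := i.isLt
        have h2 := j.isLt
        have h3 := Nat.ModEq.eq_of_lt_of_lt hij (by omega) (by omega)
        exact Fin.ext (by omega)
  let a : Fin (Nat.card K) → K := fun i => (c i)⁻¹ * T (c i)
  have ha0 : ∀ i : Fin (Nat.card K), i.val = 0 → a i = 1 := by
    intro i hi
    simp only [a, c, if_pos hi, hx]
    group
  have hprod : ∀ k, (hk : k < Nat.card K) →
      Fin.partialProd a (⟨k, hk⟩ : Fin (Nat.card K)).succ = p⁻¹ * (T ^ k) p := by
    intro k
    induction k with
    | zero =>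
      intro hk
      rw [Fin.partialProd_succ]
      have : (⟨0, hk⟩ : Fin (Nat.card K)).castSucc = 0 := rfl
      rw [this, Fin.partialProd_zero, ha0 _ rfl]
      simp
    | succ k ih =>
      intro hk
      rw [Fin.partialProd_succ]
      have : (⟨k + 1, hk⟩ : Fin (Nat.card K)).castSucc =
          (⟨k, by omega⟩ : Fin (Nat.card K)).succ := rfl
      rw [this, ih (by omega)]
      have h2 : a ⟨k + 1, hk⟩ = ((T ^ k) p)⁻¹ * T ((T ^ k) p) := by
        simp [a, c]
      rw [h2, pow_succ', Perm.mul_apply]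
      group
  refine ⟨a, ?_, ha0, ?_, ?_⟩
  · have h1 : Function.Injective a := hinj.comp hc
    rw [Nat.bijective_iff_injective_and_card]
    exact ⟨h1, by rw [Nat.card_eq_fintype_card, Fintype.card_fin]⟩
  · intro i j hi hj hij
    have h1 := hprod i.val i.isLt
    have h2 := hprod j.val j.isLt
    rw [h1, h2] at hij
    have h3 := mul_left_cancel hij
    rw [hcyc'.pow_apply_eq_pow_apply hps, hL] at h3
    exact Fin.ext (Nat.ModEq.eq_of_lt_of_lt h3 (by omega) (by omega))
  · obtain ⟨n, hn⟩ : ∃ n, Nat.card K = n + 1 := ⟨Nat.card K - 1, by omega⟩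
    have h1 := hprod n (by omega)
    have h2 : Fin.last (Nat.card K) = (⟨n, by omega⟩ : Fin (Nat.card K)).succ := by
      apply Fin.ext
      change Nat.card K = n + 1
      exact hn
    rw [h2, h1]
    have h3 : (T ^ n) p = p := by
      have := hcyc'.pow_card_apply hps
      rwa [hL, hn, Nat.add_sub_cancel] at this
    rw [h3]; group

theorem Good.of_mulEquiv {K' : Type*} [Group K'] (e : K ≃* K') (h : Good K) : Good K' := by
  obtain ⟨T, x, p, r, hinj, hcyc, hx, hp, hr, h1, h2, hcard⟩ := h
  let T' : Perm K' := e.toEquiv.permCongrHom T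
  have hT' : ∀ g, T' (e g) = e (T g) := by
    intro g; simp [T']
  have hT'pow : ∀ (i : ℤ) g, (T' ^ i) (e g) = e ((T ^ i) g) := by
    intro i g
    have : T' ^ i = e.toEquiv.permCongrHom (T ^ i) := by
      rw [map_zpow]
    rw [this]; simp
  refine ⟨T', e x, e p, e r, ?_, ?_, ?_, ?_, ?_, ?_, ?_, ?_⟩
  · intro g g' hgg
    obtain ⟨g, rfl⟩ := e.surjective g
    obtain ⟨g', rfl⟩ := e.surjective g'
    simp only [hT'] at hgg
    have : e (g⁻¹ * T g) = e (g'⁻¹ * T g') := by simpa using hgg
    rw [hinj (e.injective this)]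
  · intro g hg g' hg'
    obtain ⟨g, rfl⟩ := e.surjective g
    obtain ⟨g', rfl⟩ := e.surjective g'
    obtain ⟨i, hi⟩ := hcyc g (fun h => hg (by rw [h])) g' (fun h => hg' (by rw [h]))
    exact ⟨i, by rw [hT'pow, hi]⟩
  · rw [hT', hx]
  · exact fun h => hp (e.injective h)
  · exact fun h => hr (e.injective h)
  · rw [hT', hT', hT', ← map_inv, ← map_inv, ← map_mul, ← map_mul, h1]
  · rw [hT', ← map_inv, ← map_mul, ← map_mul, h2]
  · rwa [← Nat.card_congr e.toEquiv]

end Basic

/-! ## The Klein four-group and the local data -/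

section Local

/-- the elementary abelian group of order four -/
abbrev H := Multiplicative (ZMod 2) × Multiplicative (ZMod 2)

def dc : Fin 4 → H :=
  ![(1, 1), (Multiplicative.ofAdd 1, 1), (1, Multiplicative.ofAdd 1),
    (Multiplicative.ofAdd 1, Multiplicative.ofAdd 1)]

def cd (h : H) : Fin 4 :=
  if h.1 = 1 then (if h.2 = 1 then 0 else 2) else (if h.2 = 1 then 1 else 3)

/-- target of a point over one of the four special elements `x, p, r, s` (numbered `0,1,2,3`):
`tT i h = (j, h')` means that `(S i, h)` is mapped to `(T (S j), h')`. -/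
def tT (i : Fin 4) (h : H) : Fin 4 × H :=
  let t : Fin 4 × Fin 4 := (![![(0, 1), (0, 2), (1, 0), (0, 3)], ![(0, 0), (1, 2), (1, 3), (1, 1)],
    ![(3, 0), (2, 2), (2, 3), (2, 1)], ![(3, 1), (3, 2), (2, 0), (3, 3)]] :
      Fin 4 → Fin 4 → Fin 4 × Fin 4) i (cd h)
  (t.1, dc t.2)

/-- the quotient table: the quotient of the step starting at `(S i, h)` is `(Q (S j), h')` -/
def tQ (i : Fin 4) (h : H) : Fin 4 × H :=
  let t : Fin 4 × Fin 4 := (![![(0, 1), (0, 3), (3, 2), (0, 0)], ![(2, 0), (1, 3), (1, 1), (1, 2)],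
    ![(1, 0), (2, 3), (2, 1), (2, 2)], ![(3, 1), (3, 3), (0, 2), (3, 0)]] :
      Fin 4 → Fin 4 → Fin 4 × Fin 4) i (cd h)
  (t.1, dc t.2)

theorem dc_cd : ∀ h : H, dc (cd h) = h := by decide

theorem tT_injective : Function.Injective (fun q : Fin 4 × H => tT q.1 q.2) := by decide

theorem tQ_injective : Function.Injective (fun q : Fin 4 × H => tQ q.1 q.2) := by decide

theorem tQ_snd : ∀ (i : Fin 4) (h : H), (tQ i h).2 = h⁻¹ * (tT i h).2 := by decide

/-- the permutation `σ_i` (a 3-cycle) -/
def sigI : Perm H := swap (dc 1) (dc 2) * swap (dc 2) (dc 3)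

/-- the permutation `σ_j` (a transposition) -/
def sigJ : Perm H := swap (dc 2) (dc 3)

theorem sign_sigI : Perm.sign sigI = 1 := by decide
theorem sign_sigJ : Perm.sign sigJ = -1 := by decide

theorem sigI_orth : Function.Injective (fun h : H => h⁻¹ * sigI h) := by decide

/-- the eight orthomorphisms used for the adjustable step -/
def orths : List (Perm H) :=
  [swap (dc 1) (dc 2) * swap (dc 2) (dc 3), swap (dc 2) (dc 3) * swap (dc 1) (dc 2),
   swap (dc 0) (dc 2) * swap (dc 2) (dc 3), swap (dc 2) (dc 3) * swap (dc 0) (dc 2),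
   swap (dc 0) (dc 1) * swap (dc 1) (dc 3), swap (dc 1) (dc 3) * swap (dc 0) (dc 1),
   swap (dc 0) (dc 1) * swap (dc 1) (dc 2), swap (dc 1) (dc 2) * swap (dc 0) (dc 1)]

theorem orths_inj : ∀ θ ∈ orths, Function.Injective (fun h : H => h⁻¹ * θ h) := by decide

theorem four_cycle : ∀ ρ : Perm H, Perm.sign ρ = -1 → ∃ θ ∈ orths, ∀ h : H, ∃ k : Fin 4,
    ((θ * ρ) ^ (k : ℕ)) 1 = h := by decide +kernel

theorem tables : ∀ (i : Fin 4) (h : H), (i, (tT i h).1, (tQ i h).1) ∈
    ([(0, 0, 0), (0, 1, 3), (1, 0, 2), (1, 1, 1), (2, 3, 1), (2, 2, 2), (3, 2, 0), (3, 3, 3)] :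
      List (Fin 4 × Fin 4 × Fin 4)) := by decide

/-- composition of the first `k` permutations of a sequence -/
def comp (f : ℕ → Perm H) : ℕ → Perm H
  | 0 => 1
  | k + 1 => f k * comp f k

theorem sign_comp (f : ℕ → Perm H) (k : ℕ) :
    Perm.sign (comp f k) = ∏ i ∈ Finset.range k, Perm.sign (f i) := by
  induction k with
  | zero => simp [comp]
  | succ k ih => rw [comp, Perm.sign_mul, ih, Finset.prod_range_succ, mul_comm]

theorem comp_congr {f g : ℕ → Perm H} {k : ℕ} (h : ∀ i < k, f i = g i) :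
    comp f k = comp g k := by
  induction k with
  | zero => rfl
  | succ k ih => rw [comp, comp, h k (Nat.lt_succ_self k), ih fun i hi => h i (by omega)]

end Local

/-! ## The lift from `K` to `K × (C_2)^2` -/

section Lift

variable {K : Type*} [Group K]

/-- an injectivity criterion for maps that are given by a table over four special elements -/
theorem inj_aux {K' : Type*} (S : Fin 4 → K) (hS : Function.Injective S) (F0 : K → K')
    (hF0 : Function.Injective F0) (τ : Fin 4 → H → Fin 4 × H)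
    (hτ : Function.Injective (fun q : Fin 4 × H => τ q.1 q.2)) (F : K × H → K' × H)
    (hsp : ∀ i h, F (S i, h) = (F0 (S (τ i h).1), (τ i h).2)) (θ : K → H → H)
    (hθ : ∀ g, Function.Injective (θ g))
    (hord : ∀ g, (∀ i, g ≠ S i) → ∀ h, F (g, h) = (F0 g, θ g h)) : Function.Injective F := by
  rintro ⟨g1, h1⟩ ⟨g2, h2⟩ h
  by_cases e1 : ∃ i, g1 = S i
  · obtain ⟨i, rfl⟩ := e1
    by_cases e2 : ∃ j, g2 = S j
    · obtain ⟨j, rfl⟩ := e2
      rw [hsp, hsp, Prod.mk.injEq] at h
      have h3 := hS (hF0 h.1)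
      have h4 : (i, h1) = (j, h2) := hτ (Prod.ext h3 h.2)
      rw [Prod.mk.injEq] at h4
      rw [h4.1, h4.2]
    · rw [not_exists] at e2
      rw [hsp, hord g2 e2, Prod.mk.injEq] at h
      exact absurd (hF0 h.1).symm (e2 _)
  · rw [not_exists] at e1
    by_cases e2 : ∃ j, g2 = S j
    · obtain ⟨j, rfl⟩ := e2
      rw [hsp, hord g1 e1, Prod.mk.injEq] at h
      exact absurd (hF0 h.1) (e1 _)
    · rw [not_exists] at e2
      rw [hord g1 e1, hord g2 e2, Prod.mk.injEq] at h
      have h3 := hF0 h.1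
      subst h3
      rw [hθ g1 h.2]

/-- the lifted map -/
def liftFun [DecidableEq K] (T : Perm K) (S : Fin 4 → K) (θ : K → Perm H) (q : K × H) : K × H :=
  if q.1 = S 0 then (T (S (tT 0 q.2).1), (tT 0 q.2).2)
  else if q.1 = S 1 then (T (S (tT 1 q.2).1), (tT 1 q.2).2)
  else if q.1 = S 2 then (T (S (tT 2 q.2).1), (tT 2 q.2).2)
  else if q.1 = S 3 then (T (S (tT 3 q.2).1), (tT 3 q.2).2)
  else (T q.1, θ q.1 q.2)

theorem liftFun_S [DecidableEq K] (T : Perm K) {S : Fin 4 → K} (hS : Function.Injective S)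
    (θ : K → Perm H) (i : Fin 4) (h : H) :
    liftFun T S θ (S i, h) = (T (S (tT i h).1), (tT i h).2) := by
  have hne : ∀ i j : Fin 4, i ≠ j → S i ≠ S j := fun i j hij he => hij (hS he)
  unfold liftFun
  fin_cases i
  · simp
  · simp [hne 1 0 (by decide)]
  · simp [hne 2 0 (by decide), hne 2 1 (by decide)]
  · simp [hne 3 0 (by decide), hne 3 1 (by decide), hne 3 2 (by decide)]

theorem liftFun_ord [DecidableEq K] (T : Perm K) {S : Fin 4 → K} (θ : K → Perm H) (g : K)
    (hg : ∀ i, g ≠ S i) (h : H) : liftFun T S θ (g, h) = (T g, θ g h) := by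
  unfold liftFun
  simp [hg 0, hg 1, hg 2, hg 3]

theorem Good.lift [Finite K] (hK : Good K) : Good (K × H) := by
  classical
  have := Fintype.ofFinite K
  obtain ⟨T, x, p, r, hinj, hcyc, hx, hpx, hrx, h1, h2, hcard⟩ := hK
  set s := T r with hs
  have hsx : s ≠ x := fun h => hrx (T.injective (h.trans hx.symm))
  have hpr : p ≠ r := by
    intro h
    rw [h, mul_inv_cancel, one_mul] at h2
    exact hsx h2
  have hps : p ≠ s := by
    intro h
    rw [← h] at h1
    exact hpr (inv_injective (mul_right_cancel h1))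
  have hrs : r ≠ s := by
    intro h
    have h3 : r⁻¹ * T r = x⁻¹ * T x := by
      rw [← hs, ← h, hx]; group
    exact hrx (hinj h3)
  let S : Fin 4 → K := ![x, p, r, s]
  have hS : Function.Injective S := by
    intro i j hij
    fin_cases i <;> fin_cases j <;> simp [S] at hij ⊢
    · exact hpx hij.symm
    · exact hrx hij.symm
    · exact hsx hij.symm
    · exact hpx hij
    · exact hpr hij
    · exact hps hij
    · exact hrx hij
    · exact hpr hij.symm
    · exact hrs hij
    · exact hsx hij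
    · exact hps hij.symm
    · exact hrs hij.symm
  -- an ordinary element
  obtain ⟨c, hc⟩ : ∃ c : K, ∀ i, c ≠ S i := by
    by_contra hcon
    push Not at hcon
    have h3 : Function.Surjective S := fun c => by
      obtain ⟨i, hi⟩ := hcon c
      exact ⟨i, hi.symm⟩
    have h4 := Nat.card_le_card_of_surjective S h3
    rw [Nat.card_eq_fintype_card (α := Fin 4), Fintype.card_fin] at h4
    omega
  have hcx : c ≠ x := hc 0
  have hcp : c ≠ p := hc 1
  have hcr : c ≠ r := hc 2
  have hcs : c ≠ s := hc 3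
  have hcyc' := isCycleOn_of hcyc hx
  have hLcard : ({x}ᶜ : Finset K).card = Nat.card K - 1 := by
    rw [Finset.card_compl, Finset.card_singleton, Nat.card_eq_fintype_card]
  obtain ⟨L, hL⟩ : ∃ L, Nat.card K = L + 2 := ⟨Nat.card K - 2, by omega⟩
  rw [hL] at hLcard
  have hmem : ∀ g : K, g ∈ ({x}ᶜ : Finset K) ↔ g ≠ x := by intro g; simp
  set c1 := T c with hc1
  have hc1x : c1 ≠ x := fun h => hcx (T.injective (h.trans hx.symm))
  have hTx : ∀ g, g ≠ x → T g ≠ x := fun g hg h => hg (T.injective (h.trans hx.symm))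
  have hpowx : ∀ k : ℕ, (T ^ k) c1 ≠ x := by
    intro k
    induction k with
    | zero => exact hc1x
    | succ k ih => rw [pow_succ', Perm.mul_apply]; exact hTx _ ih
  have hpc : (T ^ L) c1 = c := by
    have := hcyc'.pow_card_apply ((hmem c).mpr hcx)
    rw [hLcard] at this
    rw [hc1, ← Perm.mul_apply, ← pow_succ]; exact this
  have hnc : ∀ i, i < L → (T ^ i) c1 ≠ c := by
    intro i hi h
    rw [hc1, ← Perm.mul_apply, ← pow_succ, hcyc'.pow_apply_eq ((hmem c).mpr hcx), hLcard] at h
    have := Nat.le_of_dvd (by omega) h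
    omega
  -- the default steps
  let step0 : K → Perm H := fun g => if g = p then sigI else if g = r then sigJ else
    if g = s then 1 else sigI
  have hstep0 : ∀ g, Perm.sign (step0 g) = if g = r then -1 else 1 := by
    intro g
    by_cases e1 : g = p
    · simp only [step0, e1, if_true]
      rw [if_neg hpr, sign_sigI]
    · by_cases e2 : g = r
      · simp only [step0, e2, if_true]
        rw [if_neg hpr.symm, sign_sigJ]
      · by_cases e3 : g = s
        · simp only [step0, e3, if_true]
          rw [if_neg hps.symm, if_neg hrs.symm, if_neg hrs.symm, Perm.sign_one]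
        · simp only [step0]
          rw [if_neg e1, if_neg e2, if_neg e3, if_neg e2, sign_sigI]
  set ρ := comp (fun i => step0 ((T ^ i) c1)) L with hρ
  have hsign : Perm.sign ρ = -1 := by
    have e1 : Perm.sign (comp (fun i => step0 ((T ^ i) c1)) (L + 1)) = Perm.sign ρ := by
      rw [comp, Perm.sign_mul, hpc, hstep0, if_neg hcr, one_mul]
    rw [← e1, sign_comp]
    have e2 : ∏ i ∈ Finset.range (L + 1), Perm.sign (step0 ((T ^ i) c1)) =
        ∏ g ∈ ({x}ᶜ : Finset K), Perm.sign (step0 g) := by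
      refine Finset.prod_nbij (fun i => (T ^ i) c1) ?_ ?_ ?_ ?_
      · intro i _
        exact (hmem _).mpr (hpowx i)
      · intro i hi j hj hij
        simp only [Finset.coe_range, Set.mem_Iio] at hi hj
        have hij' : (T ^ i) c1 = (T ^ j) c1 := hij
        rw [hcyc'.pow_apply_eq_pow_apply ((hmem _).mpr hc1x), hLcard] at hij'
        exact Nat.ModEq.eq_of_lt_of_lt hij' (by omega) (by omega)
      · intro g hg
        obtain ⟨n, hn, hn'⟩ := hcyc'.exists_pow_eq ((hmem _).mpr hc1x) hg
        rw [hLcard] at hn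
        exact ⟨n, by simpa using hn, hn'⟩
      · intro i _; rfl
    rw [e2]
    simp only [hstep0]
    rw [Finset.prod_ite_eq', if_pos ((hmem r).mpr hrx)]
  obtain ⟨θc, hθc, hfour⟩ := four_cycle ρ hsign
  let θ : K → Perm H := fun g => if g = c then θc else sigI
  have hθ : ∀ g, Function.Injective (fun h : H => h⁻¹ * θ g h) := by
    intro g
    by_cases e : g = c
    · simp only [θ, if_pos e]; exact orths_inj θc hθc
    · simp only [θ, if_neg e]; exact sigI_orth
  have hFinj : Function.Injective (liftFun T S θ) :=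
    inj_aux S hS T T.injective tT tT_injective _ (liftFun_S T hS θ) (fun g => θ g)
      (fun g => (θ g).injective) (fun g hg h => liftFun_ord T θ g hg h)
  let T' : Perm (K × H) := Equiv.ofBijective _ (Finite.injective_iff_bijective.mp hFinj)
  have hT'S : ∀ i h, T' (S i, h) = (T (S (tT i h).1), (tT i h).2) := liftFun_S T hS θ
  have hT'o : ∀ g, (∀ i, g ≠ S i) → ∀ h, T' (g, h) = (T g, θ g h) := liftFun_ord T θ
  -- the individual values
  have x0 : T' (x, dc 0) = (x, dc 1) := (hT'S 0 (dc 0)).trans (by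
    rw [show tT 0 (dc 0) = (0, dc 1) by decide]; exact Prod.ext hx rfl)
  have x1 : T' (x, dc 1) = (x, dc 2) := (hT'S 0 (dc 1)).trans (by
    rw [show tT 0 (dc 1) = (0, dc 2) by decide]; exact Prod.ext hx rfl)
  have x2 : T' (x, dc 2) = (T p, dc 0) := (hT'S 0 (dc 2)).trans (by
    rw [show tT 0 (dc 2) = (1, dc 0) by decide]; exact Prod.ext rfl rfl)
  have x3 : T' (x, dc 3) = (x, dc 3) := (hT'S 0 (dc 3)).trans (by
    rw [show tT 0 (dc 3) = (0, dc 3) by decide]; exact Prod.ext hx rfl)
  have p0 : T' (p, dc 0) = (x, dc 0) := (hT'S 1 (dc 0)).trans (by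
    rw [show tT 1 (dc 0) = (0, dc 0) by decide]; exact Prod.ext hx rfl)
  have p1 : T' (p, dc 1) = (T p, dc 2) := (hT'S 1 (dc 1)).trans (by
    rw [show tT 1 (dc 1) = (1, dc 2) by decide]; exact Prod.ext rfl rfl)
  have p2 : T' (p, dc 2) = (T p, dc 3) := (hT'S 1 (dc 2)).trans (by
    rw [show tT 1 (dc 2) = (1, dc 3) by decide]; exact Prod.ext rfl rfl)
  have p3 : T' (p, dc 3) = (T p, dc 1) := (hT'S 1 (dc 3)).trans (by
    rw [show tT 1 (dc 3) = (1, dc 1) by decide]; exact Prod.ext rfl rfl)
  have r0 : T' (r, dc 0) = (T s, dc 0) := (hT'S 2 (dc 0)).trans (by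
    rw [show tT 2 (dc 0) = (3, dc 0) by decide]; exact Prod.ext rfl rfl)
  have r1 : T' (r, dc 1) = (s, dc 2) := (hT'S 2 (dc 1)).trans (by
    rw [show tT 2 (dc 1) = (2, dc 2) by decide]; exact Prod.ext rfl rfl)
  have r2 : T' (r, dc 2) = (s, dc 3) := (hT'S 2 (dc 2)).trans (by
    rw [show tT 2 (dc 2) = (2, dc 3) by decide]; exact Prod.ext rfl rfl)
  have r3 : T' (r, dc 3) = (s, dc 1) := (hT'S 2 (dc 3)).trans (by
    rw [show tT 2 (dc 3) = (2, dc 1) by decide]; exact Prod.ext rfl rfl)
  have s0 : T' (s, dc 0) = (T s, dc 1) := (hT'S 3 (dc 0)).trans (by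
    rw [show tT 3 (dc 0) = (3, dc 1) by decide]; exact Prod.ext rfl rfl)
  have s1 : T' (s, dc 1) = (T s, dc 2) := (hT'S 3 (dc 1)).trans (by
    rw [show tT 3 (dc 1) = (3, dc 2) by decide]; exact Prod.ext rfl rfl)
  have s2 : T' (s, dc 2) = (s, dc 0) := (hT'S 3 (dc 2)).trans (by
    rw [show tT 3 (dc 2) = (2, dc 0) by decide]; exact Prod.ext rfl rfl)
  have s3 : T' (s, dc 3) = (T s, dc 3) := (hT'S 3 (dc 3)).trans (by
    rw [show tT 3 (dc 3) = (3, dc 3) by decide]; exact Prod.ext rfl rfl)
  have hH : ∀ h : H, h = dc 0 ∨ h = dc 1 ∨ h = dc 2 ∨ h = dc 3 := by decide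
  -- one step stays in the same cycle
  have hR : ∀ {a b : K × H}, T' a = b → T'.SameCycle a b := by
    intro a b h
    rw [← h]
    exact sameCycle_apply_right.mpr (SameCycle.refl _ _)
  have hTsx : T s ≠ x := hTx s hsx
  have hTss : T s ≠ s := fun h => hrs (T.injective (hs.symm.trans h.symm)).symm.symm
  have hTpx : T p ≠ x := hTx p hpx
  have hTps : T p ≠ s := fun h => hpr (T.injective (h.trans hs))
  have hP : ∀ h : H, T'.SameCycle (p, h) (T p, sigI h) := by
    intro h
    rcases hH h with rfl | rfl | rfl | rfl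
    · rw [show sigI (dc 0) = dc 0 by decide]
      exact (hR p0).trans ((hR x0).trans ((hR x1).trans (hR x2)))
    · rw [show sigI (dc 1) = dc 2 by decide]; exact hR p1
    · rw [show sigI (dc 2) = dc 3 by decide]; exact hR p2
    · rw [show sigI (dc 3) = dc 1 by decide]; exact hR p3
  have hRr : ∀ h : H, T'.SameCycle (r, h) (T s, sigJ h) := by
    intro h
    rcases hH h with rfl | rfl | rfl | rfl
    · rw [show sigJ (dc 0) = dc 0 by decide]; exact hR r0
    · rw [show sigJ (dc 1) = dc 1 by decide]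
      exact (hR r1).trans ((hR s2).trans (hR s0))
    · rw [show sigJ (dc 2) = dc 3 by decide]; exact (hR r2).trans (hR s3)
    · rw [show sigJ (dc 3) = dc 2 by decide]; exact (hR r3).trans (hR s1)
  -- the actual steps
  let stepP : K → Perm H := fun g => if g = p then sigI else if g = r then sigJ else
    if g = s then 1 else θ g
  have hstepc : stepP c = θc := by
    simp only [stepP, θ]
    rw [if_neg hcp, if_neg hcr, if_neg hcs, if_true]
  have hstep_eq : ∀ g, g ≠ c → stepP g = step0 g := by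
    intro g hg
    simp only [stepP, step0, θ]
    rw [if_neg hg]
  let ι : K → H → K × H := fun g h => if g = s then (T s, h) else (g, h)
  have hι : ∀ g h, g ≠ s → ι g h = (g, h) := fun g h hg => if_neg hg
  have hιs : ∀ h, ι s h = (T s, h) := fun h => if_pos rfl
  have hstep : ∀ g h, g ≠ x → T'.SameCycle (ι g h) (ι (T g) (stepP g h)) := by
    intro g h hg
    by_cases e1 : g = p
    · subst e1
      rw [hι _ _ hps, hι _ _ hTps]
      simp only [stepP, if_true]
      exact hP h
    · by_cases e2 : g = r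
      · subst e2
        rw [hι _ _ hrs, ← hs, hιs]
        simp only [stepP]
        rw [if_neg e1, if_true]
        exact hRr h
      · by_cases e3 : g = s
        · rw [e3, hιs, hι _ _ hTss]
          simp only [stepP]
          rw [if_neg hps.symm, if_neg hrs.symm, if_true]
          exact SameCycle.refl _ _
        · have hTgs : T g ≠ s := fun h => e2 (T.injective (h.trans hs))
          rw [hι _ _ e3, hι _ _ hTgs]
          simp only [stepP]
          rw [if_neg e1, if_neg e2, if_neg e3]
          apply hR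
          apply hT'o
          intro i
          fin_cases i
          · exact hg
          · exact e1
          · exact e2
          · exact e3
  -- transport along the cycle
  let f : ℕ → Perm H := fun i => stepP ((T ^ i) c1)
  have hcomp : ∀ k h, T'.SameCycle (ι c1 h) (ι ((T ^ k) c1) (comp f k h)) := by
    intro k h
    induction k with
    | zero => exact SameCycle.refl _ _
    | succ k ih =>
      refine ih.trans ?_
      rw [pow_succ', Perm.mul_apply]
      exact hstep _ _ (hpowx k)
  have hcompL : comp f L = ρ := by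
    rw [hρ]
    exact comp_congr fun i hi => hstep_eq _ (hnc i hi)
  have hc1s : c1 ≠ s := fun h => hcr (T.injective (h.trans hs))
  have hround : ∀ h, T'.SameCycle (c1, h) (c1, (θc * ρ) h) := by
    intro h
    have e1 := hcomp (L + 1) h
    have e2 : (T ^ (L + 1)) c1 = c1 := by rw [pow_succ', Perm.mul_apply, hpc]
    rw [e2, hι _ _ hc1s, hι _ _ hc1s, comp, hcompL] at e1
    have e3 : f L = θc := by
      change stepP ((T ^ L) c1) = θc
      rw [hpc, hstepc]
    rwa [e3] at e1
  have hround' : ∀ (k : ℕ) h, T'.SameCycle (c1, h) (c1, ((θc * ρ) ^ k) h) := by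
    intro k h
    induction k with
    | zero => exact SameCycle.refl _ _
    | succ k ih =>
      refine ih.trans ?_
      rw [pow_succ', Perm.mul_apply]
      exact hround _
  have hbase : ∀ h, T'.SameCycle (c1, (1 : H)) (c1, h) := by
    intro h
    obtain ⟨k, hk⟩ := hfour h
    rw [← hk]
    exact hround' _ _
  have hgen : ∀ g h, g ≠ x → g ≠ s → T'.SameCycle (c1, (1 : H)) (g, h) := by
    intro g h hg hgs
    obtain ⟨k, -, hk⟩ := hcyc'.exists_pow_eq ((hmem _).mpr hc1x) ((hmem _).mpr hg)
    have e1 := hcomp k ((comp f k).symm h)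
    rw [Equiv.apply_symm_apply, hk, hι _ _ hc1s, hι _ _ hgs] at e1
    exact (hbase _).trans e1
  have hall : ∀ q : K × H, q ≠ (x, dc 3) → T'.SameCycle (c1, (1 : H)) q := by
    rintro ⟨g, h⟩ hq
    by_cases hg : g = x
    · subst hg
      have X2 : T'.SameCycle (c1, (1 : H)) (g, dc 2) := (hgen (T p) (dc 0) hTpx hTps).trans (hR x2).symm
      have X1 : T'.SameCycle (c1, (1 : H)) (g, dc 1) := X2.trans (hR x1).symm
      have X0 : T'.SameCycle (c1, (1 : H)) (g, dc 0) := X1.trans (hR x0).symm
      rcases hH h with rfl | rfl | rfl | rfl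
      · exact X0
      · exact X1
      · exact X2
      · exact absurd rfl hq
    · by_cases hgs : g = s
      · rw [hgs]
        have S0 : T'.SameCycle (c1, (1 : H)) (s, dc 0) := (hgen (T s) (dc 1) hTsx hTss).trans (hR s0).symm
        rcases hH h with rfl | rfl | rfl | rfl
        · exact S0
        · exact (hgen (T s) (dc 2) hTsx hTss).trans (hR s1).symm
        · exact S0.trans (hR s2).symm
        · exact (hgen (T s) (dc 3) hTsx hTss).trans (hR s3).symm
      · exact hgen g h hg hgs
  refine ⟨T', (x, dc 3), (p, dc 2), (r, dc 2), ?_, ?_, x3, ?_, ?_, ?_, ?_, ?_⟩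
  · -- the quotient map is injective
    refine inj_aux S hS (fun g => g⁻¹ * T g) hinj tQ tQ_injective _ ?_ (fun g h => h⁻¹ * θ g h) hθ ?_
    · intro i h
      change (S i, h)⁻¹ * T' (S i, h) = _
      rw [hT'S, Prod.inv_mk, Prod.mk_mul_mk, ← tQ_snd]
      refine Prod.ext ?_ rfl
      change (S i)⁻¹ * T (S (tT i h).1) = (S (tQ i h).1)⁻¹ * T (S (tQ i h).1)
      have key := tables i h
      generalize (tT i h).1 = j at key
      generalize (tQ i h).1 = j' at key
      have Tp : T p = p * r⁻¹ * T s := by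
        rw [mul_assoc, ← h1]; group
      simp only [List.mem_cons, Prod.mk.injEq, List.not_mem_nil, or_false] at key
      rcases key with ⟨rfl, rfl, rfl⟩ | ⟨rfl, rfl, rfl⟩ | ⟨rfl, rfl, rfl⟩ | ⟨rfl, rfl, rfl⟩ |
        ⟨rfl, rfl, rfl⟩ | ⟨rfl, rfl, rfl⟩ | ⟨rfl, rfl, rfl⟩ | ⟨rfl, rfl, rfl⟩
      · rfl
      · change x⁻¹ * T p = s⁻¹ * T s
        rw [Tp, ← h2]; group
      · change p⁻¹ * T x = r⁻¹ * T r
        rw [hx, ← hs, ← h2]; group
      · rfl
      · change r⁻¹ * T s = p⁻¹ * T p
        exact h1.symm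
      · rfl
      · change s⁻¹ * T r = x⁻¹ * T x
        rw [← hs, hx]; group
      · rfl
    · intro g hg h
      change (g, h)⁻¹ * T' (g, h) = _
      rw [hT'o g hg, Prod.inv_mk, Prod.mk_mul_mk]
  · intro q hq q' hq'
    exact (hall q hq).symm.trans (hall q' hq')
  · intro h
    exact hpx (congrArg Prod.fst h)
  · intro h
    exact hrx (congrArg Prod.fst h)
  · rw [p2, r2, s3]
    exact Prod.ext h1 rfl
  · rw [r2]
    exact Prod.ext h2 (show dc 2 * (dc 2)⁻¹ * dc 3 = dc 3 by decide)
  · rw [Nat.card_prod]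
    have : 0 < Nat.card H := Nat.card_pos
    exact hcard.trans (Nat.le_mul_of_pos_right _ this)

end Lift

/-! ## The two base cases -/

section Base

theorem good_of_list {K : Type*} [Group K] [Fintype K] [DecidableEq K] (l : List K)
    (hnd : l.Nodup) (x p r : K) (hl : ∀ g, g ≠ x → g ∈ l) (hxl : x ∉ l)
    (hinj : Function.Injective fun g => g⁻¹ * l.formPerm g) (hp : p ≠ x) (hr : r ≠ x)
    (h1 : p⁻¹ * l.formPerm p = r⁻¹ * l.formPerm (l.formPerm r))
    (h2 : p * r⁻¹ * l.formPerm r = x) (hcard : 5 ≤ Nat.card K) : Good K :=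
  ⟨l.formPerm, x, p, r, hinj, fun g hg g' hg' =>
    hnd.isCycleOn_formPerm.2 (hl g hg) (hl g' hg'),
    List.formPerm_apply_of_notMem hxl, hp, hr, h1, h2, hcard⟩

abbrev A4 := alternatingGroup (Fin 4)

def a1 : A4 := ⟨swap 0 1 * swap 2 3, mem_alternatingGroup.mpr (by decide)⟩
def a2 : A4 := ⟨swap 0 2 * swap 1 3, mem_alternatingGroup.mpr (by decide)⟩
def w : A4 := ⟨swap 1 2 * swap 2 3, mem_alternatingGroup.mpr (by decide)⟩

/-- elements of `A_4`, seen as the affine maps `t ↦ ω^r t + v` of the field with four elements -/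
def E (v r : ℕ) : A4 := a1 ^ (v % 2) * a2 ^ (v / 2) * w ^ r

/-- an R-sequence of `A_4` (the missing element is `E 3 2`) -/
def l0 : List A4 := [E 0 0, E 0 1, E 1 0, E 0 2, E 1 1, E 2 2, E 2 1, E 3 1, E 1 2, E 3 0, E 2 0]

set_option maxRecDepth 100000 in
theorem good_A4 : Good A4 :=
  good_of_list l0 (by decide +kernel) (E 3 2) (E 0 0) (E 0 1) (by decide +kernel)
    (by decide +kernel) (by decide +kernel) (by decide +kernel) (by decide +kernel)
    (by decide +kernel) (by decide +kernel)
    (by rw [Nat.card_eq_fintype_card]; decide +kernel)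

abbrev A42 := A4 × Multiplicative (ZMod 2)

def E2 (v r u : ℕ) : A42 := (E v r, Multiplicative.ofAdd (u : ZMod 2))

/-- an R-sequence of `A_4 × C_2` (the missing element is `E2 1 0 0`) -/
def l1 : List A42 := [E2 0 0 0, E2 3 1 0, E2 3 2 1, E2 2 1 0, E2 1 1 1, E2 3 0 1, E2 3 2 0,
  E2 3 0 0, E2 0 2 0, E2 1 1 0, E2 0 1 1, E2 2 2 1, E2 2 2 0, E2 1 2 1, E2 0 2 1, E2 2 0 0,
  E2 3 1 1, E2 2 1 1, E2 2 0 1, E2 0 1 0, E2 1 0 1, E2 0 0 1, E2 1 2 0]

set_option maxRecDepth 100000 in
theorem good_A42 : Good A42 :=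
  good_of_list l1 (by decide +kernel) (E2 1 0 0) (E2 2 0 1) (E2 1 1 0) (by decide +kernel)
    (by decide +kernel) (by decide +kernel) (by decide +kernel) (by decide +kernel)
    (by decide +kernel) (by decide +kernel)
    (by rw [Nat.card_eq_fintype_card]; decide +kernel)

end Base

/-! ## The result -/

/-- the group `A_4 × (C_2)^m` -/
abbrev G (m : ℕ) := alternatingGroup (Fin 4) × (Fin m → Multiplicative (ZMod 2))

/-- `(A_4 × (C_2)^m) × (C_2)^2 ≃ A_4 × (C_2)^(m+2)` -/
def stepEquiv (m : ℕ) : G m × H ≃* G (m + 2) where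
  toFun q := (q.1.1, Matrix.vecCons q.2.1 (Matrix.vecCons q.2.2 q.1.2))
  invFun q := ((q.1, fun i => q.2 i.succ.succ), (q.2 0, q.2 1))
  left_inv q := by
    rcases q with ⟨⟨a, f⟩, ⟨b, c⟩⟩
    rfl
  right_inv q := by
    rcases q with ⟨a, f⟩
    refine Prod.ext rfl (funext fun i => ?_)
    refine Fin.cases rfl (fun i => ?_) i
    refine Fin.cases rfl (fun i => ?_) i
    rfl
  map_mul' q q' := by
    rcases q with ⟨⟨a, f⟩, ⟨b, c⟩⟩
    rcases q' with ⟨⟨a', f'⟩, ⟨b', c'⟩⟩
    refine Prod.ext rfl (funext fun i => ?_)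
    refine Fin.cases rfl (fun i => ?_) i
    refine Fin.cases rfl (fun i => ?_) i
    rfl

theorem good_G : ∀ m : ℕ, Good (G m)
  | 0 => good_A4.of_mulEquiv MulEquiv.prodUnique.symm
  | 1 => good_A42.of_mulEquiv
      (MulEquiv.prodCongr (MulEquiv.refl _)
        (MulEquiv.piUnique (fun _ : Fin 1 => Multiplicative (ZMod 2))).symm)
  | m + 2 => (good_G m).lift.of_mulEquiv (stepEquiv m)

/-- For every `m`, the group `A_4 × (C_2)^m` is R-sequenceable. -/
theorem result : ∀ m : ℕ,
    RSequenceable (alternatingGroup (Fin 4) × (Fin m → Multiplicative (ZMod 2))) :=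
  fun m => (good_G m).rSequenceable

end Pool.Agent.Results.MP_0ef4f9_co.RSequenceableA4
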